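import Pool.Agent.Helper85.QT.St3

/-!
# Project QT, module LKE (row 15680): the exact line integral
-/

set_option autoImplicit false

open MeasureTheory Matrix Set Topology Filter
open scoped ENNReal ComplexConjugate

namespace Pool.Agent.Helper15.QT

open Pool.Agent.Helper85.QT Pool.Agent.Helper86.QA

theorem lke_ne {lam z : ℂ} (hl : lam ≠ 0) (hz0 : 0 < z.im)
    (hz1 : z.im < (2 * Real.pi * Complex.I / lam).im) : Complex.exp (lam * z) ≠ 1 := by
  intro h1
  rw [Complex.exp_eq_one_iff] at h1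
  obtain ⟨n, hn⟩ := h1
  have hz : z = ((n : ℝ) : ℂ) * (2 * Real.pi * Complex.I / lam) := by
    push_cast
    field_simp
    linear_combination hn
  have him : z.im = (n : ℝ) * (2 * Real.pi * Complex.I / lam).im := by
    conv_lhs => rw [hz]
    rw [Complex.im_ofReal_mul]
  set T := (2 * Real.pi * Complex.I / lam).im
  have hT : 0 < T := lt_trans hz0 hz1
  have h0 : (0 : ℝ) < n := by
    by_contra hc
    push Not at hc
    nlinarith
  have h1' : (n : ℝ) < 1 := by
    by_contra hc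
    push Not at hc
    nlinarith
  have h2 : (0 : ℤ) < n := by exact_mod_cast h0
  have h3 : (n : ℤ) < 1 := by exact_mod_cast h1'
  omega

theorem lke_convS (T : ℝ) : Convex ℝ {z : ℂ | 0 < z.im ∧ z.im < T} := by
  have h1 : Convex ℝ (Complex.imLm ⁻¹' Ioo 0 T) := (convex_Ioo 0 T).linear_preimage _
  exact h1

theorem lke_openS (T : ℝ) : IsOpen {z : ℂ | 0 < z.im ∧ z.im < T} :=
  (isOpen_lt continuous_const Complex.continuous_im).inter
    (isOpen_lt Complex.continuous_im continuous_const)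

theorem lke_convL (lam : ℂ) (ρ : ℝ) : Convex ℝ {z : ℂ | (lam * z).re ≤ ρ} := by
  have h1 : Convex ℝ ((Complex.reLm.comp ((LinearMap.mulLeft ℂ lam).restrictScalars ℝ)) ⁻¹' Iic ρ) :=
    (convex_Iic ρ).linear_preimage _
  exact h1

theorem lke_convR (lam : ℂ) (ρ : ℝ) : Convex ℝ {z : ℂ | ρ ≤ (lam * z).re} := by
  have h1 : Convex ℝ ((Complex.reLm.comp ((LinearMap.mulLeft ℂ lam).restrictScalars ℝ)) ⁻¹' Ici ρ) :=
    (convex_Ici ρ).linear_preimage _
  exact h1

theorem lke_prim {lam : ℂ} (hl : lam ≠ 0) :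
    ∃ L : ℂ → ℂ, ∀ z : ℂ, 0 < z.im → z.im < (2 * Real.pi * Complex.I / lam).im →
      HasDerivAt L (-lam * Complex.exp (lam * z) / (1 - Complex.exp (lam * z))) z := by
  set T := (2 * Real.pi * Complex.I / lam).im with hT
  obtain ⟨L, hL⟩ := (lke_convS T).exists_forall_hasDerivWithinAt
    (f := fun z : ℂ => -lam * Complex.exp (lam * z) / (1 - Complex.exp (lam * z))) (by
      intro z hz
      have hne : 1 - Complex.exp (lam * z) ≠ 0 := sub_ne_zero.mpr (Ne.symm (lke_ne hl hz.1 hz.2))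
      refine DifferentiableAt.differentiableWithinAt ?_
      refine DifferentiableAt.div ?_ ?_ hne
      · fun_prop
      · fun_prop)
  exact ⟨L, fun z h0 h1 => (hL z ⟨h0, h1⟩).hasDerivAt ((lke_openS T).mem_nhds ⟨h0, h1⟩)⟩

theorem lke_L1 {lam : ℂ} {L : ℂ → ℂ} {T : ℝ} (hL : ∀ z : ℂ, 0 < z.im → z.im < T →
      HasDerivAt L (-lam * Complex.exp (lam * z) / (1 - Complex.exp (lam * z))) z)
    {ρ : ℝ} (hρ : Real.exp ρ ≤ 1 / 2) {z1 z2 : ℂ} (h1 : 0 < z1.im) (h1' : z1.im < T) (h2 : 0 < z2.im)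
    (h2' : z2.im < T) (h3 : (lam * z1).re ≤ ρ) (h4 : (lam * z2).re ≤ ρ) :
    ‖L z1 - L z2‖ ≤ 2 * ‖lam‖ * Real.exp ρ * ‖z1 - z2‖ := by
  refine Convex.norm_image_sub_le_of_norm_hasDerivWithin_le (𝕜 := ℂ)
    (f' := fun z => -lam * Complex.exp (lam * z) / (1 - Complex.exp (lam * z)))
    (s := {z : ℂ | 0 < z.im ∧ z.im < T} ∩ {z : ℂ | (lam * z).re ≤ ρ}) ?_ ?_
    ((lke_convS T).inter (lke_convL lam ρ)) ⟨⟨h2, h2'⟩, h4⟩ ⟨⟨h1, h1'⟩, h3⟩
  · rintro z ⟨⟨hz1, hz2⟩, hz3⟩
    exact (hL z hz1 hz2).hasDerivWithinAt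
  · rintro z ⟨⟨hz1, hz2⟩, hz3⟩
    have e1 : ‖Complex.exp (lam * z)‖ ≤ Real.exp ρ := by
      rw [Complex.norm_exp]
      exact Real.exp_le_exp.mpr hz3
    have e2 : 1 / 2 ≤ ‖1 - Complex.exp (lam * z)‖ := by
      have := norm_sub_norm_le (1 : ℂ) (Complex.exp (lam * z))
      rw [norm_one] at this
      linarith
    show ‖-lam * Complex.exp (lam * z) / (1 - Complex.exp (lam * z))‖ ≤ _
    rw [norm_div, norm_mul, norm_neg, div_le_iff₀ (by linarith)]
    have e3 : 0 ≤ ‖lam‖ * Real.exp ρ := by positivity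
    have e4 : ‖lam‖ * ‖Complex.exp (lam * z)‖ ≤ ‖lam‖ * Real.exp ρ :=
      mul_le_mul_of_nonneg_left e1 (norm_nonneg _)
    nlinarith

theorem lke_L2 {lam : ℂ} {L : ℂ → ℂ} {T : ℝ} (hL : ∀ z : ℂ, 0 < z.im → z.im < T →
      HasDerivAt L (-lam * Complex.exp (lam * z) / (1 - Complex.exp (lam * z))) z)
    {ρ : ℝ} (hρ : Real.exp (-ρ) ≤ 1 / 2) {z1 z2 : ℂ} (h1 : 0 < z1.im) (h1' : z1.im < T) (h2 : 0 < z2.im)
    (h2' : z2.im < T) (h3 : ρ ≤ (lam * z1).re) (h4 : ρ ≤ (lam * z2).re) :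
    ‖(L z1 - lam * z1) - (L z2 - lam * z2)‖ ≤ 2 * ‖lam‖ * Real.exp (-ρ) * ‖z1 - z2‖ := by
  have hρ2 : 2 ≤ Real.exp ρ := by
    rw [Real.exp_neg] at hρ
    have h := Real.exp_pos ρ
    rw [inv_le_comm₀ h (by norm_num)] at hρ
    linarith
  have hnorm : ∀ z : ℂ, ρ ≤ (lam * z).re → Real.exp ρ / 2 ≤ ‖1 - Complex.exp (lam * z)‖ := by
    intro z hz
    have e1 : Real.exp ρ ≤ ‖Complex.exp (lam * z)‖ := by
      rw [Complex.norm_exp]
      exact Real.exp_le_exp.mpr hz
    have := norm_sub_norm_le (Complex.exp (lam * z)) (1 : ℂ)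
    rw [norm_one, norm_sub_rev] at this
    linarith
  refine Convex.norm_image_sub_le_of_norm_hasDerivWithin_le (𝕜 := ℂ) (f := fun z => L z - lam * z)
    (f' := fun z => -lam * Complex.exp (lam * z) / (1 - Complex.exp (lam * z)) - lam * 1)
    (s := {z : ℂ | 0 < z.im ∧ z.im < T} ∩ {z : ℂ | ρ ≤ (lam * z).re}) ?_ ?_
    ((lke_convS T).inter (lke_convR lam ρ)) ⟨⟨h2, h2'⟩, h4⟩ ⟨⟨h1, h1'⟩, h3⟩
  · rintro z ⟨⟨hz1, hz2⟩, hz3⟩
    exact ((hL z hz1 hz2).sub ((hasDerivAt_id z).const_mul lam)).hasDerivWithinAt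
  · rintro z ⟨⟨hz1, hz2⟩, hz3⟩
    have e2 := hnorm z hz3
    have hpos : 0 < Real.exp ρ / 2 := by positivity
    have hne : 1 - Complex.exp (lam * z) ≠ 0 := by
      intro h
      rw [h, norm_zero] at e2
      linarith
    have e3 : -lam * Complex.exp (lam * z) / (1 - Complex.exp (lam * z)) - lam * 1 =
        -lam / (1 - Complex.exp (lam * z)) := by
      field_simp
      ring
    show ‖-lam * Complex.exp (lam * z) / (1 - Complex.exp (lam * z)) - lam * 1‖ ≤ _
    rw [e3, norm_div, norm_neg, div_le_iff₀ (by linarith)]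
    have e4 : Real.exp (-ρ) * Real.exp ρ = 1 := by rw [← Real.exp_add]; simp
    have e5 : 2 * ‖lam‖ * Real.exp (-ρ) * (Real.exp ρ / 2) ≤
        2 * ‖lam‖ * Real.exp (-ρ) * ‖1 - Complex.exp (lam * z)‖ :=
      mul_le_mul_of_nonneg_left e2 (by positivity)
    calc ‖lam‖ = 2 * ‖lam‖ * Real.exp (-ρ) * (Real.exp ρ / 2) := by
          linear_combination (-‖lam‖) * e4
      _ ≤ _ := e5

theorem lke_th_le {a b ξ : ℂ} {p q : ℝ} (hp : 0 < p) (hq : 0 < q) (h1 : p ≤ ‖ξ - a‖) (h2 : q ≤ ‖ξ - b‖) :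
    ‖th a b ξ‖ ≤ ‖a - b‖ ^ 2 / (p ^ 2 * q ^ 2) := by
  unfold th
  rw [norm_div, norm_mul, norm_pow, norm_pow, norm_pow]
  gcongr

theorem lke_int {a b : ℂ} (ha : a ≠ 0) (hb : b ≠ 0) {c d : ℝ → ℂ} (hcc : Continuous c) (hdc : Continuous d)
    (hca : ∀ t, c t ≠ a) (hcb : ∀ t, c t ≠ b) {D s K : ℝ} (hD : 0 ≤ D) (hd : ∀ t, ‖d t‖ ≤ D * ‖c t‖) (hs : 0 < s)
    (hc1 : ∀ t, Real.exp (s * t - K) ≤ ‖c t‖) (hc2 : ∀ t, ‖c t‖ ≤ Real.exp (s * t + K)) :
    Integrable (fun t => th a b (c t) * c t * d t) := by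
  have ha' : 0 < ‖a‖ := norm_pos_iff.mpr ha
  have hb' : 0 < ‖b‖ := norm_pos_iff.mpr hb
  have hthc : Continuous (fun t => th a b (c t)) := by
    unfold th
    refine continuous_const.div ?_ ?_
    · fun_prop
    · intro t
      exact mul_ne_zero (pow_ne_zero _ (sub_ne_zero.mpr (hca t))) (pow_ne_zero _ (sub_ne_zero.mpr (hcb t)))
  have hloc : LocallyIntegrable (fun t => th a b (c t) * c t * d t) := by
    apply Continuous.locallyIntegrable
    exact (hthc.mul hcc).mul hdc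
  refine hloc.integrable_of_isBigO_atBot_atTop (g := fun t : ℝ => Real.exp ((2 * s) * t))
    (g' := fun t : ℝ => Real.exp ((-(2 * s)) * t)) ?_ ⟨Iic 0, Iic_mem_atBot 0, integrableOn_exp_mul_Iic (by linarith) 0⟩
    ?_ ⟨Ioi 0, Ioi_mem_atTop 0, integrableOn_exp_mul_Ioi (by linarith) 0⟩
  · have hlim : Tendsto (fun t : ℝ => Real.exp (s * t + K)) atBot (𝓝 0) := by
      refine Real.tendsto_exp_atBot.comp ?_
      exact tendsto_atBot_add_const_right _ _ (tendsto_id.const_mul_atBot hs)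
    have hm : 0 < min ‖a‖ ‖b‖ / 2 := by positivity
    have hev := (tendsto_order.mp hlim).2 _ hm
    refine Asymptotics.IsBigO.of_bound ((‖a - b‖ ^ 2 / ((‖a‖ / 2) ^ 2 * (‖b‖ / 2) ^ 2)) * D * Real.exp (2 * K)) ?_
    filter_upwards [hev] with t ht
    have h0 : ‖c t‖ ≤ min ‖a‖ ‖b‖ / 2 := le_trans (hc2 t) ht.le
    have h1 : ‖c t‖ ≤ ‖a‖ / 2 := le_trans h0 (by gcongr; exact min_le_left _ _)
    have h2 : ‖c t‖ ≤ ‖b‖ / 2 := le_trans h0 (by gcongr; exact min_le_right _ _)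
    have e1 : ‖a‖ / 2 ≤ ‖c t - a‖ := by
      have := norm_sub_norm_le a (c t)
      rw [norm_sub_rev] at this
      linarith
    have e2 : ‖b‖ / 2 ≤ ‖c t - b‖ := by
      have := norm_sub_norm_le b (c t)
      rw [norm_sub_rev] at this
      linarith
    have e3 := lke_th_le (a := a) (b := b) (ξ := c t) (by positivity) (by positivity) e1 e2
    rw [norm_mul, norm_mul, Real.norm_eq_abs, abs_of_pos (Real.exp_pos _)]
    have e4 : ‖c t‖ * ‖c t‖ ≤ Real.exp (2 * K) * Real.exp (2 * s * t) := by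
      calc ‖c t‖ * ‖c t‖ ≤ Real.exp (s * t + K) * Real.exp (s * t + K) :=
            mul_le_mul (hc2 t) (hc2 t) (norm_nonneg _) (Real.exp_pos _).le
        _ = Real.exp (2 * K) * Real.exp (2 * s * t) := by
            rw [← Real.exp_add, ← Real.exp_add]; ring_nf
    calc ‖th a b (c t)‖ * ‖c t‖ * ‖d t‖
        ≤ (‖a - b‖ ^ 2 / ((‖a‖ / 2) ^ 2 * (‖b‖ / 2) ^ 2)) * ‖c t‖ * (D * ‖c t‖) := by
          gcongr
          exact hd t
      _ = (‖a - b‖ ^ 2 / ((‖a‖ / 2) ^ 2 * (‖b‖ / 2) ^ 2)) * D * (‖c t‖ * ‖c t‖) := by ring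
      _ ≤ (‖a - b‖ ^ 2 / ((‖a‖ / 2) ^ 2 * (‖b‖ / 2) ^ 2)) * D * (Real.exp (2 * K) * Real.exp (2 * s * t)) := by
          gcongr
      _ = _ := by ring
  · have hlim : Tendsto (fun t : ℝ => Real.exp (s * t - K)) atTop atTop := by
      refine Real.tendsto_exp_atTop.comp ?_
      exact tendsto_atTop_add_const_right _ _ (tendsto_id.const_mul_atTop hs)
    have hev := hlim.eventually_ge_atTop (2 * (‖a‖ + ‖b‖))
    refine Asymptotics.IsBigO.of_bound (16 * ‖a - b‖ ^ 2 * D * Real.exp (2 * K)) ?_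
    filter_upwards [hev] with t ht
    have h0 : 2 * (‖a‖ + ‖b‖) ≤ ‖c t‖ := le_trans ht (hc1 t)
    have hcpos : 0 < ‖c t‖ := by linarith
    have e1 : ‖c t‖ / 2 ≤ ‖c t - a‖ := by
      have := norm_sub_norm_le (c t) a
      linarith
    have e2 : ‖c t‖ / 2 ≤ ‖c t - b‖ := by
      have := norm_sub_norm_le (c t) b
      linarith
    have e3 := lke_th_le (a := a) (b := b) (ξ := c t) (by positivity) (by positivity) e1 e2
    rw [norm_mul, norm_mul, Real.norm_eq_abs, abs_of_pos (Real.exp_pos _)]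
    have e4 : (‖c t‖ ^ 2)⁻¹ ≤ Real.exp (2 * K) * Real.exp (-(2 * s) * t) := by
      have h5 : Real.exp (s * t - K) ^ 2 ≤ ‖c t‖ ^ 2 :=
        pow_le_pow_left₀ (Real.exp_pos _).le (hc1 t) 2
      calc (‖c t‖ ^ 2)⁻¹ ≤ (Real.exp (s * t - K) ^ 2)⁻¹ := by
            gcongr
        _ = Real.exp (2 * K) * Real.exp (-(2 * s) * t) := by
            rw [← Real.exp_nat_mul, ← Real.exp_neg, ← Real.exp_add]
            congr 1
            push_cast
            ring
    calc ‖th a b (c t)‖ * ‖c t‖ * ‖d t‖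
        ≤ (‖a - b‖ ^ 2 / ((‖c t‖ / 2) ^ 2 * (‖c t‖ / 2) ^ 2)) * ‖c t‖ * (D * ‖c t‖) := by
          gcongr
          exact hd t
      _ = 16 * ‖a - b‖ ^ 2 * D * (‖c t‖ ^ 2)⁻¹ := by
          field_simp
          ring
      _ ≤ 16 * ‖a - b‖ ^ 2 * D * (Real.exp (2 * K) * Real.exp (-(2 * s) * t)) := by
          gcongr
      _ = _ := by ring

theorem lke_core {lam : ℂ} (hre : 0 < lam.re) {g g' : ℝ → ℂ} (hg : ∀ t, HasDerivAt g (g' t) t)
    (hgc : Continuous g') {C : ℝ} {κ : ℂ} (hκ : ∀ t : ℝ, ‖g t - t - κ‖ ≤ 1 / 2) (hgb : ∀ t, ‖g' t‖ ≤ C)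
    {ζa ζb a b : ℂ} (ha0 : κ.im + 1 / 2 < ζa.im) (ha1 : ζa.im < κ.im + (2 * Real.pi * Complex.I / lam).im - 1 / 2)
    (hb0 : κ.im + 1 / 2 < ζb.im) (hb1 : ζb.im < κ.im + (2 * Real.pi * Complex.I / lam).im - 1 / 2)
    (hea : Complex.exp (lam * ζa) = a) (heb : Complex.exp (lam * ζb) = b) (hab : a ≠ b) :
    Integrable (fun t : ℝ => th a b (Complex.exp (lam * g t)) * Complex.exp (lam * g t) *
      (lam * g' t * Complex.exp (lam * g t))) ∧
    ∫ t : ℝ, th a b (Complex.exp (lam * g t)) * Complex.exp (lam * g t) * (lam * g' t * Complex.exp (lam * g t)) =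
      -2 + ((a + b) / (a - b)) * (lam * (ζa - ζb)) := by
  have hl : lam ≠ 0 := by
    intro h
    rw [h] at hre
    simp at hre
  obtain ⟨L, hL⟩ := lke_prim hl
  set T := (2 * Real.pi * Complex.I / lam).im with hT
  have hane : a ≠ 0 := by rw [← hea]; exact Complex.exp_ne_zero _
  have hbne : b ≠ 0 := by rw [← heb]; exact Complex.exp_ne_zero _
  have himg : ∀ t : ℝ, |(g t).im - κ.im| ≤ 1 / 2 := by
    intro t
    have h1 := Complex.abs_im_le_norm (g t - t - κ)
    have h2 : (g t - t - κ).im = (g t).im - κ.im := by simp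
    rw [h2] at h1
    exact h1.trans (hκ t)
  have hS : ∀ ζ : ℂ, κ.im + 1 / 2 < ζ.im → ζ.im < κ.im + T - 1 / 2 → ∀ t : ℝ,
      0 < (ζ - g t).im ∧ (ζ - g t).im < T := by
    intro ζ h1 h2 t
    have h3 := abs_le.mp (himg t)
    rw [Complex.sub_im]
    constructor <;> linarith [h3.1, h3.2]
  have hcont : Continuous g := by
    rw [continuous_iff_continuousAt]
    exact fun t => (hg t).continuousAt
  -- real parts
  have hre1 : ∀ t : ℝ, |(lam * g t).re - (lam.re * t + (lam * κ).re)| ≤ ‖lam‖ / 2 := by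
    intro t
    have h1 : (lam * g t).re - (lam.re * t + (lam * κ).re) = (lam * (g t - t - κ)).re := by
      simp [mul_sub, Complex.mul_re]
      ring
    rw [h1]
    refine (Complex.abs_re_le_norm _).trans ?_
    rw [norm_mul]
    have := mul_le_mul_of_nonneg_left (hκ t) (norm_nonneg lam)
    linarith
  have hq : ∀ (ζ p : ℂ), Complex.exp (lam * ζ) = p → κ.im + 1 / 2 < ζ.im → ζ.im < κ.im + T - 1 / 2 → ∀ t : ℝ,
      Complex.exp (lam * g t) ≠ p ∧ HasDerivAt (fun t : ℝ => L (ζ - g t))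
        (lam * g' t * p / (Complex.exp (lam * g t) - p)) t := by
    intro ζ p hp h1 h2 t
    have h3 := hS ζ h1 h2 t
    have h4 : Complex.exp (lam * (ζ - g t)) = p / Complex.exp (lam * g t) := by
      rw [mul_sub, Complex.exp_sub, hp]
    have h5 := lke_ne hl h3.1 h3.2
    rw [h4] at h5
    have h6 : Complex.exp (lam * g t) ≠ p := by
      intro h
      apply h5
      rw [← h]
      exact div_self (Complex.exp_ne_zero _)
    refine ⟨h6, ?_⟩
    have h7 : HasDerivAt (fun t : ℝ => ζ - g t) (-g' t) t := by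
      have := (hg t).const_sub ζ
      exact this
    have h8 := HasDerivAt.scomp t (hL _ h3.1 h3.2) h7
    have h9 : (-g' t) • (-lam * Complex.exp (lam * (ζ - g t)) / (1 - Complex.exp (lam * (ζ - g t)))) =
        lam * g' t * p / (Complex.exp (lam * g t) - p) := by
      rw [h4, smul_eq_mul]
      have h10 := Complex.exp_ne_zero (lam * g t)
      have h11 : Complex.exp (lam * g t) - p ≠ 0 := sub_ne_zero.mpr h6
      have h12 : 1 - p / Complex.exp (lam * g t) ≠ 0 := sub_ne_zero.mpr (Ne.symm h5)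
      rw [mul_div_assoc', div_eq_div_iff h12 h11]
      field_simp
    rw [h9] at h8
    exact h8
  have hc' : ∀ t : ℝ, HasDerivAt (fun t : ℝ => Complex.exp (lam * g t)) (lam * g' t * Complex.exp (lam * g t)) t := by
    intro t
    have h1 := ((hg t).const_mul lam).cexp
    rw [mul_comm] at h1
    exact h1
  have hP : ∀ t : ℝ, HasDerivAt (fun t : ℝ => -(a / (Complex.exp (lam * g t) - a)) - b / (Complex.exp (lam * g t) - b) -
      ((a + b) / (a - b)) * (L (ζa - g t) - L (ζb - g t)))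
      (th a b (Complex.exp (lam * g t)) * Complex.exp (lam * g t) * (lam * g' t * Complex.exp (lam * g t))) t := by
    intro t
    obtain ⟨h1, h2⟩ := hq ζa a hea ha0 ha1 t
    obtain ⟨h3, h4⟩ := hq ζb b heb hb0 hb1 t
    have h1' : Complex.exp (lam * g t) - a ≠ 0 := sub_ne_zero.mpr h1
    have h3' : Complex.exp (lam * g t) - b ≠ 0 := sub_ne_zero.mpr h3
    have hab' : a - b ≠ 0 := sub_ne_zero.mpr hab
    have e1 := ((hasDerivAt_const t a).div ((hc' t).sub_const a) h1').neg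
    have e2 := (hasDerivAt_const t b).div ((hc' t).sub_const b) h3'
    have e3 := (h2.sub h4).const_mul ((a + b) / (a - b))
    refine ((e1.sub e2).sub e3).congr_deriv ?_
    unfold th
    field_simp
    ring
  -- limits
  have hlow : ∀ t : ℝ, lam.re * t + (lam * κ).re - ‖lam‖ / 2 ≤ (lam * g t).re := fun t => by
    linarith [(abs_le.mp (hre1 t)).1]
  have hupp : ∀ t : ℝ, (lam * g t).re ≤ lam.re * t + (lam * κ).re + ‖lam‖ / 2 := fun t => by
    linarith [(abs_le.mp (hre1 t)).2]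
  have hgtop : Tendsto (fun t : ℝ => (lam * g t).re) atTop atTop := by
    refine tendsto_atTop_mono hlow ?_
    have h1 : Tendsto (fun t : ℝ => lam.re * t + ((lam * κ).re - ‖lam‖ / 2)) atTop atTop :=
      tendsto_atTop_add_const_right _ _ (tendsto_id.const_mul_atTop hre)
    refine h1.congr fun t => ?_
    ring
  have hgbot : Tendsto (fun t : ℝ => (lam * g t).re) atBot atBot := by
    refine tendsto_atBot_mono hupp ?_
    have h1 : Tendsto (fun t : ℝ => lam.re * t + ((lam * κ).re + ‖lam‖ / 2)) atBot atBot :=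
      tendsto_atBot_add_const_right _ _ (tendsto_id.const_mul_atBot hre)
    refine h1.congr fun t => ?_
    ring
  have hctop : Tendsto (fun t : ℝ => ‖Complex.exp (lam * g t)‖) atTop atTop := by
    refine (Real.tendsto_exp_atTop.comp hgtop).congr fun t => ?_
    rw [Complex.norm_exp]
    rfl
  have hcbot : Tendsto (fun t : ℝ => Complex.exp (lam * g t)) atBot (𝓝 0) := by
    rw [tendsto_zero_iff_norm_tendsto_zero]
    refine (Real.tendsto_exp_atBot.comp hgbot).congr fun t => ?_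
    rw [Complex.norm_exp]
    rfl
  have hltop : ∀ p : ℂ, Tendsto (fun t : ℝ => p / (Complex.exp (lam * g t) - p)) atTop (𝓝 0) := by
    intro p
    have h1 : Tendsto (fun t : ℝ => ‖Complex.exp (lam * g t) - p‖) atTop atTop := by
      refine tendsto_atTop_mono (fun t => norm_sub_norm_le (Complex.exp (lam * g t)) p) ?_
      exact tendsto_atTop_add_const_right _ _ hctop
    rw [tendsto_zero_iff_norm_tendsto_zero]
    refine (h1.const_div_atTop ‖p‖).congr fun t => ?_
    rw [norm_div]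
  have hlbot : ∀ p : ℂ, p ≠ 0 → Tendsto (fun t : ℝ => p / (Complex.exp (lam * g t) - p)) atBot (𝓝 (-1)) := by
    intro p hp
    have h1 : Tendsto (fun t : ℝ => p / (Complex.exp (lam * g t) - p)) atBot (𝓝 (p / (0 - p))) := by
      refine tendsto_const_nhds.div (hcbot.sub_const p) ?_
      simpa using hp
    have h2 : p / (0 - p) = -1 := by
      rw [zero_sub, div_neg, div_self hp]
    rwa [h2] at h1
  have hHtop : Tendsto (fun t : ℝ => L (ζa - g t) - L (ζb - g t)) atTop (𝓝 0) := by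
    set r0 := max (lam * ζa).re (lam * ζb).re with hr0
    have hrho : Tendsto (fun t : ℝ => r0 - (lam * g t).re) atTop atBot :=
      tendsto_atBot_add_const_left _ _ (tendsto_neg_atTop_atBot.comp hgtop)
    have hexp : Tendsto (fun t : ℝ => Real.exp (r0 - (lam * g t).re)) atTop (𝓝 0) :=
      Real.tendsto_exp_atBot.comp hrho
    have hsm : ∀ᶠ t : ℝ in atTop, Real.exp (r0 - (lam * g t).re) ≤ 1 / 2 :=
      (hexp.eventually (ge_mem_nhds (by norm_num)))
    refine squeeze_zero_norm' (a := fun t : ℝ => 2 * ‖lam‖ * Real.exp (r0 - (lam * g t).re) * ‖ζa - ζb‖) ?_ ?_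
    · filter_upwards [hsm] with t ht
      have h1 := hS ζa ha0 ha1 t
      have h2 := hS ζb hb0 hb1 t
      have h3 : (lam * (ζa - g t)).re ≤ r0 - (lam * g t).re := by
        rw [mul_sub, Complex.sub_re]
        linarith [le_max_left (lam * ζa).re (lam * ζb).re]
      have h4 : (lam * (ζb - g t)).re ≤ r0 - (lam * g t).re := by
        rw [mul_sub, Complex.sub_re]
        linarith [le_max_right (lam * ζa).re (lam * ζb).re]
      have h5 := lke_L1 hL ht h1.1 h1.2 h2.1 h2.2 h3 h4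
      have h6 : ζa - g t - (ζb - g t) = ζa - ζb := by ring
      rwa [h6] at h5
    · have := (hexp.const_mul (2 * ‖lam‖)).mul_const ‖ζa - ζb‖
      simpa using this
  have hHbot : Tendsto (fun t : ℝ => L (ζa - g t) - L (ζb - g t)) atBot (𝓝 (lam * (ζa - ζb))) := by
    rw [← tendsto_sub_nhds_zero_iff]
    set r0 := min (lam * ζa).re (lam * ζb).re with hr0
    have hrho : Tendsto (fun t : ℝ => -(r0 - (lam * g t).re)) atBot atBot := by
      refine (tendsto_atBot_add_const_left _ (-r0) hgbot).congr fun t => ?_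
      ring
    have hexp : Tendsto (fun t : ℝ => Real.exp (-(r0 - (lam * g t).re))) atBot (𝓝 0) :=
      Real.tendsto_exp_atBot.comp hrho
    have hsm : ∀ᶠ t : ℝ in atBot, Real.exp (-(r0 - (lam * g t).re)) ≤ 1 / 2 :=
      (hexp.eventually (ge_mem_nhds (by norm_num)))
    refine squeeze_zero_norm' (a := fun t : ℝ => 2 * ‖lam‖ * Real.exp (-(r0 - (lam * g t).re)) * ‖ζa - ζb‖) ?_ ?_
    · filter_upwards [hsm] with t ht
      have h1 := hS ζa ha0 ha1 t
      have h2 := hS ζb hb0 hb1 t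
      have h3 : r0 - (lam * g t).re ≤ (lam * (ζa - g t)).re := by
        rw [mul_sub, Complex.sub_re]
        linarith [min_le_left (lam * ζa).re (lam * ζb).re]
      have h4 : r0 - (lam * g t).re ≤ (lam * (ζb - g t)).re := by
        rw [mul_sub, Complex.sub_re]
        linarith [min_le_right (lam * ζa).re (lam * ζb).re]
      have h5 := lke_L2 hL ht h1.1 h1.2 h2.1 h2.2 h3 h4
      have h6 : ζa - g t - (ζb - g t) = ζa - ζb := by ring
      rw [h6] at h5
      have h7 : L (ζa - g t) - lam * (ζa - g t) - (L (ζb - g t) - lam * (ζb - g t)) =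
          L (ζa - g t) - L (ζb - g t) - lam * (ζa - ζb) := by ring
      rwa [h7] at h5
    · have := (hexp.const_mul (2 * ‖lam‖)).mul_const ‖ζa - ζb‖
      simpa using this
  have hint : Integrable (fun t : ℝ => th a b (Complex.exp (lam * g t)) * Complex.exp (lam * g t) *
      (lam * g' t * Complex.exp (lam * g t))) := by
    have hC : 0 ≤ C := (norm_nonneg _).trans (hgb 0)
    refine lke_int (D := ‖lam‖ * C) (s := lam.re) (K := |(lam * κ).re| + ‖lam‖ / 2) hane hbne (by fun_prop) (by fun_prop)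
      (fun t => (hq ζa a hea ha0 ha1 t).1) (fun t => (hq ζb b heb hb0 hb1 t).1) (by positivity) ?_ hre ?_ ?_
    · intro t
      rw [norm_mul, norm_mul]
      gcongr
      exact hgb t
    · intro t
      rw [Complex.norm_exp]
      refine Real.exp_le_exp.mpr ?_
      linarith [hlow t, neg_abs_le (lam * κ).re]
    · intro t
      rw [Complex.norm_exp]
      refine Real.exp_le_exp.mpr ?_
      linarith [hupp t, le_abs_self (lam * κ).re]
  refine ⟨hint, ?_⟩
  have hbot := (((hlbot a hane).neg).sub (hlbot b hbne)).sub (hHbot.const_mul ((a + b) / (a - b)))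
  have htop := (((hltop a).neg).sub (hltop b)).sub (hHtop.const_mul ((a + b) / (a - b)))
  rw [integral_of_hasDerivAt_of_tendsto hP hint hbot htop]
  ring

theorem hLKE (hANB : Pool.Agent.Helper85.QT.StANB) (hLSD : Pool.Agent.Helper85.QT.StLSD) :
    Pool.Agent.Helper85.QT.StLKE := by
  obtain ⟨C, m₁, hC, hm₁, hLSD⟩ := hLSD
  refine ⟨max m₁ 100, ?_⟩
  intro Γ _ ρ A B α lam M G m φ C3 hAnn hm a ha b hb ha0 hb0 hab
  have hmm₁ : m₁ ≤ m := le_trans (le_max_left _ _) hm
  have hm100 : 100 ≤ m := le_trans (le_max_right _ _) hm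
  obtain ⟨hl, -, -, hHN, -, -, -, -, -, -, -, -, -, hff, -⟩ := hANB Γ ρ A B α lam M G m φ C3 hAnn
  obtain ⟨-, -, h3⟩ := hLSD Γ ρ A B α lam M G m φ C3 hAnn
  obtain ⟨κ, hκC, hκ, hζ⟩ := h3 hmm₁
  have hlog : ∀ p : ℂ, p ∈ LS A B → p ≠ 0 → ∃ ζ : ℂ, Complex.exp (lam * ζ) = p ∧
      κ.im + m / 2 + m / 50 ≤ ζ.im ∧ ζ.im ≤ κ.im + m / 2 + (2 * Real.pi * Complex.I / lam).im - m / 50 := by
    intro p hp hp0
    have h1 : Complex.exp (lam * (Complex.log p / lam)) = p := by
      rw [mul_div_cancel₀ _ hl, Complex.exp_log hp0]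
    obtain ⟨k, hk1, hk2⟩ := hζ (Complex.log p / lam) (by rw [h1]; exact hp)
    refine ⟨Complex.log p / lam + k * (2 * Real.pi * Complex.I / lam), ?_, hk1, hk2⟩
    have h2 : lam * (Complex.log p / lam + k * (2 * Real.pi * Complex.I / lam)) =
        lam * (Complex.log p / lam) + k * (2 * Real.pi * Complex.I) := by
      field_simp
    rw [h2, Complex.exp_add, h1, Complex.exp_int_mul_two_pi_mul_I, mul_one]
  obtain ⟨ζa, hea, ha1, ha2⟩ := hlog a ha ha0
  obtain ⟨ζb, heb, hb1, hb2⟩ := hlog b hb hb0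
  have hopen : IsOpen (Sm m) := lke_openS m
  -- the curve
  have hwS : ∀ t : ℝ, (t + (m / 2 : ℝ) * Complex.I : ℂ) ∈ Sm m := by
    intro t
    simp only [Sm, Set.mem_setOf_eq, Complex.add_im, Complex.ofReal_im, Complex.mul_im, Complex.ofReal_re,
      Complex.I_im, Complex.I_re]
    constructor <;> linarith
  have hwi : ∀ t : ℝ, (t + (m / 2 : ℝ) * Complex.I : ℂ).im = m / 2 := by
    intro t
    simp
  have hgd : ∀ t : ℝ, HasDerivAt (fun t : ℝ => G (φ (t + (m / 2 : ℝ) * Complex.I)))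
      (deriv (fun w => G (φ w)) (t + (m / 2 : ℝ) * Complex.I)) t := by
    intro t
    have h1 : HasDerivAt (fun w => G (φ w)) (deriv (fun w => G (φ w)) (t + (m / 2 : ℝ) * Complex.I))
        (t + (m / 2 : ℝ) * Complex.I) :=
      ((hHN.dif _ (hwS t)).differentiableAt (hopen.mem_nhds (hwS t))).hasDerivAt
    have h2 : HasDerivAt (fun t : ℝ => (t + (m / 2 : ℝ) * Complex.I : ℂ)) 1 t :=
      (Complex.ofRealCLM.hasDerivAt (x := t)).add_const _
    have h3 := HasDerivAt.scomp t h1 h2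
    rw [one_smul] at h3
    exact h3
  have hgc : Continuous (fun t : ℝ => deriv (fun w => G (φ w)) (t + (m / 2 : ℝ) * Complex.I)) := by
    have h1 : ContinuousOn (deriv (fun w => G (φ w))) (Sm m) := (hHN.dif.deriv hopen).continuousOn
    exact h1.comp_continuous (by fun_prop) hwS
  have hgk : ∀ t : ℝ, ‖G (φ (t + (m / 2 : ℝ) * Complex.I)) - t - (κ + (m / 2 : ℝ) * Complex.I)‖ ≤ 1 / 2 := by
    intro t
    have h1 := hκ _ (hwi t)
    have h2 : G (φ (t + (m / 2 : ℝ) * Complex.I)) - t - (κ + (m / 2 : ℝ) * Complex.I) =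
        G (φ (t + (m / 2 : ℝ) * Complex.I)) - (t + (m / 2 : ℝ) * Complex.I) - κ := by ring
    rw [h2]
    exact h1
  have hgb : ∀ t : ℝ, ‖deriv (fun w => G (φ w)) (t + (m / 2 : ℝ) * Complex.I)‖ ≤ C + 1 := by
    intro t
    set w₀ : ℂ := (t + (m / 2 : ℝ) * Complex.I : ℂ) with hw₀
    have hball : ∀ w ∈ Metric.closedBall w₀ 1, 2 ≤ dd m w ∧ w ∈ Sm m := by
      intro w hw
      rw [mem_closedBall_iff_norm] at hw
      have h1 := abs_le.mp ((Complex.abs_im_le_norm (w - w₀)).trans hw)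
      rw [Complex.sub_im, hwi t] at h1
      refine ⟨le_min (by linarith [h1.1]) (by linarith [h1.2]), ?_, ?_⟩ <;> linarith [h1.1, h1.2]
    have hdiff : DiffContOnCl ℂ (fun w => G (φ w) - w - κ) (Metric.ball w₀ 1) := by
      refine DifferentiableOn.diffContOnCl ?_
      rw [closure_ball _ one_ne_zero]
      intro w hw
      have h1 := hball w hw
      have h2 : DifferentiableAt ℂ (fun w => G (φ w)) w := (hHN.dif w h1.2).differentiableAt (hopen.mem_nhds h1.2)
      exact ((h2.sub differentiableAt_id).sub_const κ).differentiableWithinAt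
    have h3 : ‖deriv (fun w => G (φ w) - w - κ) w₀‖ ≤ C / 1 := by
      refine Complex.norm_deriv_le_of_forall_mem_sphere_norm_le one_pos hdiff ?_
      intro w hw
      exact hκC w (hball w (Metric.sphere_subset_closedBall hw)).1
    have h4 : DifferentiableAt ℂ (fun w => G (φ w)) w₀ := (hHN.dif w₀ (hwS t)).differentiableAt (hopen.mem_nhds (hwS t))
    have h5 : deriv (fun w => G (φ w) - w - κ) w₀ = deriv (fun w => G (φ w)) w₀ - 1 := by
      have h6 : HasDerivAt (fun w => G (φ w) - w - κ) (deriv (fun w => G (φ w)) w₀ - 1) w₀ :=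
        (h4.hasDerivAt.sub (hasDerivAt_id w₀)).sub_const κ
      exact h6.deriv
    rw [h5, div_one] at h3
    calc ‖deriv (fun w => G (φ w)) w₀‖ = ‖(deriv (fun w => G (φ w)) w₀ - 1) + 1‖ := by rw [sub_add_cancel]
      _ ≤ ‖deriv (fun w => G (φ w)) w₀ - 1‖ + ‖(1 : ℂ)‖ := norm_add_le _ _
      _ ≤ C + 1 := by rw [norm_one]; linarith
  have hκim : (κ + (m / 2 : ℝ) * Complex.I).im = κ.im + m / 2 := by simp
  obtain ⟨i1, i2⟩ := lke_core (a := a) (b := b) hAnn.re hgd hgc hgk hgb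
    (ζa := ζa) (ζb := ζb) (by rw [hκim]; linarith) (by rw [hκim]; linarith) (by rw [hκim]; linarith)
    (by rw [hκim]; linarith) hea heb hab
  have hfun : (fun t : ℝ => th a b (ff lam G φ (t + (m / 2 : ℝ) * Complex.I)) * ff lam G φ (t + (m / 2 : ℝ) * Complex.I) *
      deriv (ff lam G φ) (t + (m / 2 : ℝ) * Complex.I)) =
      fun t : ℝ => th a b (Complex.exp (lam * G (φ (t + (m / 2 : ℝ) * Complex.I)))) *
        Complex.exp (lam * G (φ (t + (m / 2 : ℝ) * Complex.I))) *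
        (lam * deriv (fun w => G (φ w)) (t + (m / 2 : ℝ) * Complex.I) *
          Complex.exp (lam * G (φ (t + (m / 2 : ℝ) * Complex.I)))) := by
    funext t
    rw [(hff _ (hwS t)).2.1]
    rfl
  refine ⟨ζa - ζb, ?_, ?_, ?_, ?_⟩
  · rw [mul_sub, Complex.exp_sub, hea, heb]
  · rw [Complex.sub_im, abs_le]
    constructor <;> linarith
  · rw [hfun]
    exact i1
  · rw [hfun]
    exact i2

end Pool.Agent.Helper15.QT
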